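import Pool.Agent.W282.EZ.Stm

/-!
# Sum and difference of two points
-/

set_option autoImplicit false

namespace Pool.Agent.W216.EZ

open Pool.Agent.W282.EZ WeierstrassCurve WeierstrassCurve.Affine

section
variable {K : Type} [Field K] [DecidableEq K] (A B : K)

/-- The statement for two points. -/
def St (P Q : (cv A B).Point) : Prop := ∃ k : K, k ≠ 0 ∧
    c2 A B (P.xRep 0) (P.xRep 1) (Q.xRep 0) (Q.xRep 1) =
      k * ((P + Q).xRep 0 * (P - Q).xRep 0) ∧
    c1 A B (P.xRep 0) (P.xRep 1) (Q.xRep 0) (Q.xRep 1) =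
      k * ((P + Q).xRep 0 * (P - Q).xRep 1 + (P + Q).xRep 1 * (P - Q).xRep 0) ∧
    c0 (P.xRep 0) (P.xRep 1) (Q.xRep 0) (Q.xRep 1) =
      k * ((P + Q).xRep 1 * (P - Q).xRep 1)

omit [DecidableEq K] in
theorem eqn {x y : K} (h : (cv A B).Nonsingular x y) : y ^ 2 = x ^ 3 + A * x + B := by
  have h1 := (Affine.equation_iff (W := cv A B) x y).1 h.1
  simp only [cv] at h1
  linear_combination h1

omit [DecidableEq K] in
theorem nsing {x y : K} (h : (cv A B).Nonsingular x y) (hy : y = 0) : 3 * x ^ 2 + A ≠ 0 := by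
  have h1 := (Affine.nonsingular_iff (W := cv A B) x y).1 h
  simp only [cv] at h1
  intro h0
  rcases h1.2 with h2 | h2
  · apply h2
    linear_combination -h0
  · apply h2
    rw [hy]
    ring

theorem dbl [CharZero K] {x y : K} (h : (cv A B).Nonsingular x y) : ∃ k : K, k ≠ 0 ∧
    c2 A B x 1 x 1 = k * ((Point.some x y h + Point.some x y h : (cv A B).Point).xRep 0) ∧
    c1 A B x 1 x 1 = k * ((Point.some x y h + Point.some x y h : (cv A B).Point).xRep 1) := by
  have he := eqn A B h
  by_cases hy : y = 0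
  · have h1 : (Point.some x y h + Point.some x y h : (cv A B).Point) = 0 := by
      apply Point.add_self_of_Y_eq
      simp only [negY, cv, hy]
      ring
    refine ⟨(3 * x ^ 2 + A) ^ 2, pow_ne_zero 2 (nsing A B h hy), ?_, ?_⟩
    · rw [h1]
      show _ = (3 * x ^ 2 + A) ^ 2 * 1
      rw [hy] at he
      unfold c2
      linear_combination 8 * x * he
    · rw [h1]
      show _ = (3 * x ^ 2 + A) ^ 2 * 0
      rw [hy] at he
      unfold c1
      linear_combination -4 * he
  · have hne : y ≠ (cv A B).negY x y := by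
      simp only [negY, cv]
      intro h0
      apply hy
      have h2 : 2 * y = 0 := by linear_combination h0
      rcases mul_eq_zero.1 h2 with h3 | h3
      · exact absurd h3 two_ne_zero
      · exact h3
    rw [Point.add_self_of_Y_ne hne]
    refine ⟨4 * y ^ 2, mul_ne_zero (by norm_num) (pow_ne_zero 2 hy), ?_, ?_⟩
    · show _ = 4 * y ^ 2 * ((cv A B).addX x x ((cv A B).slope x x y y))
      rw [slope_of_Y_ne rfl hne]
      simp only [addX, negY, cv, c2]
      have h2 : y - (-y - 0 * x - 0) = 2 * y := by ring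
      rw [h2]
      field_simp
      linear_combination 32 * x * he
    · show _ = 4 * y ^ 2 * 1
      unfold c1
      linear_combination -4 * he

theorem gen {x y x' y' : K} (h : (cv A B).Nonsingular x y) (h' : (cv A B).Nonsingular x' y')
    (hx : x ≠ x') : St A B (Point.some x y h) (Point.some x' y' h') := by
  have he := eqn A B h
  have he' := eqn A B h'
  have hd : x - x' ≠ 0 := sub_ne_zero.2 hx
  unfold St
  rw [sub_eq_add_neg, Point.neg_some, Point.add_of_X_ne hx, Point.add_of_X_ne hx]
  simp only [Point.xRep_some, Matrix.cons_val_zero, Matrix.cons_val_one]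
  rw [slope_of_X_ne hx, slope_of_X_ne hx]
  simp only [addX, negY, cv]
  set l := (y - y') / (x - x') with hl
  have e0 : (y - (-y' - 0 * x' - 0)) / (x - x') = (y + y') / (x - x') := by
    congr 1; ring
  rw [e0]
  set l' := (y + y') / (x - x') with hl'
  have hl1 : l * (x - x') = y - y' := div_mul_cancel₀ _ hd
  have hl2 : l' * (x - x') = y + y' := div_mul_cancel₀ _ hd
  have hll : l * l' * (x - x') = x ^ 2 + x * x' + x' ^ 2 + A := by
    apply mul_right_cancel₀ hd
    linear_combination (l' * (x - x')) * hl1 + (y - y') * hl2 + he - he'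
  refine ⟨(x - x') ^ 2, pow_ne_zero 2 hd, ?_, ?_, ?_⟩
  · unfold c2
    have hs : (l * (x - x')) ^ 2 + (l' * (x - x')) ^ 2 = 2 * y ^ 2 + 2 * y' ^ 2 := by
      rw [hl1, hl2]; ring
    linear_combination -(l * l' * (x - x') + (x ^ 2 + x * x' + x' ^ 2 + A)) * hll
      + (x + x') * hs + 2 * (x + x') * he + 2 * (x + x') * he'
  · unfold c1
    have hs : (l * (x - x')) ^ 2 + (l' * (x - x')) ^ 2 = 2 * y ^ 2 + 2 * y' ^ 2 := by
      rw [hl1, hl2]; ring
    linear_combination -hs - 2 * he - 2 * he'
  · unfold c0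
    ring

theorem same [CharZero K] {x y : K} (h : (cv A B).Nonsingular x y) (Q : (cv A B).Point)
    (hQ : Q = Point.some x y h ∨ Q = -Point.some x y h) : St A B (Point.some x y h) Q := by
  obtain ⟨k, hk, h1, h2⟩ := dbl A B h
  have hX : Q.xRep = ![x, 1] := by
    rcases hQ with rfl | rfl
    · rfl
    · rw [Point.xRep_neg]; rfl
  have hc : c0 x 1 x 1 = 0 := by unfold c0; ring
  refine ⟨k, hk, ?_, ?_, ?_⟩
  · rw [hX]
    show c2 A B x 1 x 1 = _
    rcases hQ with rfl | rfl
    · rw [sub_self, h1]
      show _ = k * (_ * 1)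
      rw [mul_one]
    · rw [sub_neg_eq_add, add_neg_cancel, h1]
      show _ = k * (1 * _)
      rw [one_mul]
  · rw [hX]
    show c1 A B x 1 x 1 = _
    rcases hQ with rfl | rfl
    · rw [sub_self, h2]
      show _ = k * (_ * 0 + _ * 1)
      rw [mul_one, mul_zero, zero_add]
    · rw [sub_neg_eq_add, add_neg_cancel, h2]
      show _ = k * (1 * _ + 0 * _)
      rw [one_mul, zero_mul, add_zero]
  · rw [hX]
    show c0 x 1 x 1 = _
    rw [hc]
    rcases hQ with rfl | rfl
    · rw [sub_self]
      show _ = k * (_ * 0)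
      rw [mul_zero, mul_zero]
    · rw [sub_neg_eq_add, add_neg_cancel]
      show _ = k * (0 * _)
      rw [zero_mul, mul_zero]

end

theorem addsub : S_ADDSUB := by
  intro K _ _ _ A B _ P Q
  show St A B P Q
  rcases P with _ | ⟨x, y, h⟩
  · refine ⟨1, one_ne_zero, ?_, ?_, ?_⟩
    all_goals
      rw [← Point.zero_def, zero_add, zero_sub, Point.xRep_neg, Point.xRep_zero]
      simp only [Matrix.cons_val_zero, Matrix.cons_val_one, c2, c1, c0]
      ring
  · rcases Q with _ | ⟨x', y', h'⟩
    · refine ⟨1, one_ne_zero, ?_, ?_, ?_⟩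
      all_goals
        rw [← Point.zero_def, add_zero, sub_zero, Point.xRep_zero]
        simp only [Matrix.cons_val_zero, Matrix.cons_val_one, c2, c1, c0]
        ring
    · by_cases hx : x = x'
      · refine same A B h _ ?_
        rcases (Point.X_eq_iff (h₁ := h) (h₂ := h')).1 hx with h1 | h1
        · exact Or.inl h1.symm
        · right
          rw [h1, neg_neg]
      · exact gen A B h h' hx

end Pool.Agent.W216.EZ
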