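import Pool.Agent.W282.EZ.Stm

/-!
# Specialization of relations
-/

set_option autoImplicit false

namespace Pool.Agent.W216.EZ

open Pool.Agent.W282.EZ WeierstrassCurve WeierstrassCurve.Affine

theorem eqn' {K : Type} [Field K] {A B x y : K} (h : (cv A B).Nonsingular x y) :
    y ^ 2 = x ^ 3 + A * x + B := by
  have h1 := (Affine.equation_iff (W := cv A B) x y).1 h.1
  simp only [cv] at h1
  linear_combination h1

theorem nonsing {K : Type} [Field K] {A B x y : K} (h2 : (2 : K) ≠ 0)
    (hD : 4 * A ^ 3 + 27 * B ^ 2 ≠ 0) (h : y ^ 2 = x ^ 3 + A * x + B) :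
    (cv A B).Nonsingular x y := by
  rw [Affine.nonsingular_iff, Affine.equation_iff]
  simp only [cv]
  refine ⟨by linear_combination h, ?_⟩
  by_contra hc
  rw [not_or, not_not, not_not] at hc
  obtain ⟨h3, h4⟩ := hc
  have hy : y = 0 := by
    have : 2 * y = 0 := by linear_combination h4
    exact (mul_eq_zero.1 this).resolve_left h2
  have hA : A = -3 * x ^ 2 := by linear_combination -h3
  have hB : B = 2 * x ^ 3 := by
    rw [hy, hA] at h
    linear_combination -h
  apply hD
  rw [hA, hB]
  ring

theorem pt_eq {K : Type} [Field K] {A B x y : K} (h : (cv A B).Nonsingular x y) :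
    pt A B x y = .some x y h := by
  unfold pt
  exact dif_pos h

section
variable {K : Type} [Field K] (O : ValuationSubring K)

theorem mem_of_root (q : Polynomial O) (d : ℕ) (hd : q.natDegree ≤ d) (hu : IsUnit (q.coeff d))
    (x : K) (hx : Polynomial.eval₂ (algebraMap O K) x q = 0) : x ∈ O := by
  obtain ⟨u, hu⟩ := hu
  have h1 : (Polynomial.C ((u⁻¹ : Oˣ) : O) * q).Monic := by
    apply Polynomial.monic_of_natDegree_le_of_coeff_eq_one d
    · exact (Polynomial.natDegree_C_mul_le _ _).trans hd
    · rw [Polynomial.coeff_C_mul, ← hu]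
      exact u.inv_mul
  have h2 : IsIntegral O x := by
    refine ⟨Polynomial.C ((u⁻¹ : Oˣ) : O) * q, h1, ?_⟩
    rw [Polynomial.eval₂_mul, hx, mul_zero]
  obtain ⟨y, hy⟩ := IsIntegrallyClosed.isIntegral_iff.1 h2
  rw [← hy]
  exact y.2

theorem y_mem {A B : O} {x y : K} (hx : x ∈ O) (h : y ^ 2 = x ^ 3 + (A : K) * x + B) : y ∈ O := by
  rcases O.mem_or_inv_mem y with h1 | h1
  · exact h1
  · by_cases hy : y = 0
    · rw [hy]; exact O.zero_mem
    · have h2 : y = (x ^ 3 + (A : K) * x + B) * y⁻¹ := by
        rw [← h]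
        field_simp
      rw [h2]
      exact O.mul_mem _ _ (O.add_mem _ _ (O.add_mem _ _ (pow_mem hx 3) (O.mul_mem _ _ A.2 hx)) B.2)
        h1

end

open Classical in
theorem lc_apply {K : Type} [Field K] {n : ℕ} (A B : K) (x y : Fin n → K) (a : Fin n → ℤ) :
    a ∈ LL A B x y ↔ ∑ j, a j • pt A B (x j) (y j) = 0 := by
  unfold LL
  rw [LinearMap.mem_ker, Fintype.linearCombination_apply]

theorem spec (hred : S_RED) (hmult : S_MULT) (hlead : S_LEAD) : S_SPEC := by
  classical
  intro K _ _ _ O n A B x y hD h2 hn hxy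
  obtain ⟨ψ, hψ1, hψ2⟩ := hred K O A B hD h2
  have h2K : (2 : K) ≠ 0 := two_ne_zero
  have hDK : 4 * (A : K) ^ 3 + 27 * (B : K) ^ 2 ≠ 0 := by
    have := (hD.map (algebraMap O K)).ne_zero
    rw [map_add, map_mul, map_mul, map_pow, map_pow, map_ofNat, map_ofNat] at this
    exact this
  have h2k : (2 : IsLocalRing.ResidueField O) ≠ 0 := by
    have := (h2.map (IsLocalRing.residue O)).ne_zero
    simpa [map_ofNat] using this
  have hDk : 4 * (IsLocalRing.residue O A) ^ 3 + 27 * (IsLocalRing.residue O B) ^ 2 ≠ 0 := by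
    have := (hD.map (IsLocalRing.residue O)).ne_zero
    simpa [map_ofNat] using this
  have hK : ∀ x y : O, y ^ 2 = x ^ 3 + A * x + B →
      (cv (A : K) (B : K)).Nonsingular (x : K) (y : K) := by
    intro x y h
    apply nonsing h2K hDK
    have := congrArg (algebraMap O K) h
    simpa using this
  have hk : ∀ x y : O, y ^ 2 = x ^ 3 + A * x + B →
      (cv (IsLocalRing.residue O A) (IsLocalRing.residue O B)).Nonsingular
        (IsLocalRing.residue O x) (IsLocalRing.residue O y) := by
    intro x y h
    apply nonsing h2k hDk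
    have := congrArg (IsLocalRing.residue O) h
    simpa using this
  have hψP : ∀ a : Fin n → ℤ, ψ (∑ j, a j • pt (A : K) (B : K) (x j : K) (y j : K)) =
      ∑ j, a j • pt (IsLocalRing.residue O A) (IsLocalRing.residue O B)
        (IsLocalRing.residue O (x j)) (IsLocalRing.residue O (y j)) := by
    intro a
    rw [map_sum]
    apply Finset.sum_congr rfl
    intro j _
    rw [map_zsmul, pt_eq (hK _ _ (hxy j)), hψ1]
  refine ⟨?_, ?_⟩
  · intro a ha
    rw [lc_apply] at ha ⊢
    rw [← hψP, ha, map_zero]
  · intro k a hk0 ha hka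
    rw [lc_apply] at ha hka ⊢
    set T := ∑ j, a j • pt (A : K) (B : K) (x j : K) (y j : K) with hT
    have hψT : ψ T = 0 := by rw [hψP]; exact ha
    have hkT : k • T = 0 := by
      rw [hT, Finset.smul_sum, ← hka]
      apply Finset.sum_congr rfl
      intro j _
      rw [Pi.smul_apply, smul_assoc]
    have hmT : k.natAbs • T = 0 := by
      rcases Int.natAbs_eq k with h | h
      · rw [h, natCast_zsmul] at hkT
        exact hkT
      · rw [h, neg_zsmul, neg_eq_zero, natCast_zsmul] at hkT
        exact hkT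
    have hm : 1 ≤ k.natAbs := Int.natAbs_pos.2 hk0
    generalize k.natAbs = m at hmT hm
    clear_value T
    rcases T with _ | ⟨X, Y, hXY⟩
    · rfl
    · exfalso
      have he := eqn' hXY
      have hX : X ∉ O := by
        intro hX
        have hY : Y ∈ O := y_mem O hX he
        have h3 := hψ1 ⟨X, hX⟩ ⟨Y, hY⟩ hXY
        have h4 : (⟨Y, hY⟩ : O) ^ 2 = (⟨X, hX⟩ : O) ^ 3 + A * ⟨X, hX⟩ + B := by
          apply Subtype.ext
          simpa using he
        rw [pt_eq (hk _ _ h4)] at h3
        have h5 : ψ (Point.some X Y hXY) = 0 := hψT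
        rw [h5] at h3
        exact Point.some_ne_zero _ h3.symm
      have h6 := hmult K (A : K) (B : K) hDK X Y hXY m
      rw [hmT] at h6
      have h7 : (mulXZ (A : K) (B : K) X m).2 = 0 := by
        have := h6.2
        have h8 : (mulXZ (A : K) (B : K) X m).1 * 0 = (mulXZ (A : K) (B : K) X m).2 * 1 := this
        rw [mul_zero, mul_one] at h8
        exact h8.symm
      obtain ⟨_, _, h9, h10⟩ := hlead O A B m hm
      apply hX
      refine mem_of_root O _ (m ^ 2 - 1) h9 ?_ X ?_
      · rw [h10]
        exact (hn m (by omega)).pow 2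
      · have h11 := mulXZ_map (Polynomial.eval₂RingHom (algebraMap O K) X) (Polynomial.C A)
          (Polynomial.C B) Polynomial.X m
        have h12 := congrArg Prod.snd h11
        simp only [Polynomial.coe_eval₂RingHom, Polynomial.eval₂_C, Polynomial.eval₂_X] at h12
        rw [← h12]
        exact h7

end Pool.Agent.W216.EZ
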